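import Mathlib
import Pool.Agent.Lib.Kaplansky48.Der

/-!
Kaplansky's problem: every unital surjective invertibility preserving linear map from a complex
unital Banach algebra onto a semisimple one is continuous and a Jordan epimorphism.
-/

namespace Pool.Agent.Results.MP_a5bb4a_an.SemisimpleCodomain

universe u v

theorem result (A : Type u) (B : Type v) [NormedRing A] [NormedAlgebra ℂ A] [CompleteSpace A]
    [NormedRing B] [NormedAlgebra ℂ B] [CompleteSpace B]
    (hB : (⊥ : Ideal B).jacobson = ⊥)
    (T : A →ₗ[ℂ] B) (h1 : T 1 = 1) (hs : Function.Surjective T)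
    (hinv : ∀ x : A, IsUnit x → IsUnit (T x)) :
    Continuous T ∧ ∀ x y : A, T (x * y + y * x) = T x * T y + T y * T x :=
  ⟨Pool.Agent.Lib.Kaplansky48.continuous_of_inv hB h1 hs hinv,
    Pool.Agent.Lib.Kaplansky48.map_jordan hB T h1 hs hinv⟩

end Pool.Agent.Results.MP_a5bb4a_an.SemisimpleCodomain
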